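import Mathlib
import Pool.Agent.TH876.FH.Def
import Pool.Agent.TH876.FH.Ana
import Pool.Agent.TH876.FH.Hj
import Pool.Agent.TH876.FH.Leg
import Pool.Agent.TH876.FH.Lh
import Pool.Agent.TH876.FH.Cnt
import Pool.Agent.TH876.FH.Prod
import Pool.Agent.TH876.FH.Fin

/-!
# Faltings heights of products of elliptic curves with full rational two-torsion

`K` is a number field. We count the products `A = E₁ × ⋯ × E_g` of elliptic curves over `K` with
full `K`-rational two-torsion for which the product of the norms of the bad primes (of each factor)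
is at most `X` and the Faltings height is at most `H`; here `H` may be much larger than every
multiple of `log X`.
-/

set_option autoImplicit false

namespace Pool.Agent.Results.MP_6babc4_nt.ProductsFullTwoTorsion

open NumberField IsDedekindDomain

/-- the modular invariant `j(τ) = E₄(τ) ^ 3 / Δ(τ) = 1 / q + 744 + ⋯` -/
noncomputable def jInv (τ : UpperHalfPlane) : ℂ :=
  ModularForm.E₄ τ ^ 3 / ModularForm.discriminant τ

/-- the archimedean term `- log (|Δ(τ)| (Im τ) ^ 6)` of the Faltings height -/
noncomputable def arch (τ : UpperHalfPlane) : ℝ :=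
  -Real.log (‖ModularForm.discriminant τ‖ * τ.im ^ 6)

/-- Silverman's formula for the stable Faltings height (up to an additive constant which depends on
the normalisation of the metric only) of an elliptic curve with modular invariant `j ∈ K`, where
`τ w` is a point of the upper half plane with modular invariant `j` at the infinite place `w`:
`12 [K : ℚ] h_F = ∑_v log max(|j|_v, 1) + ∑_w [K_w : ℝ] arch (τ w)`. -/
noncomputable def faltings {K : Type} [Field K] [NumberField K] (j : K)
    (τ : InfinitePlace K → UpperHalfPlane) : ℝ :=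
  (∑ᶠ v : HeightOneSpectrum (𝓞 K), Real.log (max (FinitePlace.mk v j) 1) +
    ∑ w : InfinitePlace K, (w.mult : ℝ) * arch (τ w)) / (12 * Module.finrank ℚ K)

/-- the points `τ w` have modular invariant `j` -/
def IsPeriod {K : Type} [Field K] [NumberField K] (j : K)
    (τ : InfinitePlace K → UpperHalfPlane) : Prop := ∀ w, jInv (τ w) = w.embedding j

/-- full rational two-torsion: the cubic `4 x ^ 3 + b₂ x ^ 2 + 2 b₄ x + b₆` has three zeros in
`K` -/
def FullTwo {K : Type} [Field K] (E : WeierstrassCurve K) : Prop :=
  ∃ e : Fin 3 → K, Function.Injective e ∧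
    ∀ i, 4 * e i ^ 3 + E.b₂ * e i ^ 2 + 2 * E.b₄ * e i + E.b₆ = 0

/-- good reduction at `v`: some Weierstrass equation over `K` of the curve is integral at `v` and
has a discriminant which is a unit at `v` -/
def GoodAt {K : Type} [Field K] [NumberField K] (v : HeightOneSpectrum (𝓞 K))
    (E : WeierstrassCurve K) : Prop :=
  ∃ C : WeierstrassCurve.VariableChange K,
    v.valuation K (C • E).a₁ ≤ 1 ∧ v.valuation K (C • E).a₂ ≤ 1 ∧ v.valuation K (C • E).a₃ ≤ 1 ∧
    v.valuation K (C • E).a₄ ≤ 1 ∧ v.valuation K (C • E).a₆ ≤ 1 ∧ v.valuation K (C • E).Δ = 1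

/-- the product of the norms of the primes of bad reduction; it divides the norm of the
conductor -/
noncomputable def badNorm {K : Type} [Field K] [NumberField K] (E : WeierstrassCurve K) : ℝ :=
  ∏ᶠ v ∈ {v : HeightOneSpectrum (𝓞 K) | ¬ GoodAt v E}, (Ideal.absNorm v.asIdeal : ℝ)

/-- the `g`-tuples of modular invariants of the products of `g` elliptic curves over `K` with full
rational two-torsion, product of the norms of the bad primes of the factors at most `X` and stable
Faltings height at most `H` -/
def Classes (K : Type) [Field K] [NumberField K] (g : ℕ) (X H : ℝ) : Set (Fin g → K) :=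
  {j | ∃ (E : Fin g → WeierstrassCurve K) (τ : Fin g → InfinitePlace K → UpperHalfPlane),
    (∀ i, (E i).Δ ≠ 0 ∧ FullTwo (E i) ∧ (E i).c₄ ^ 3 / (E i).Δ = j i ∧ IsPeriod (j i) (τ i)) ∧
    ∏ i, badNorm (E i) ≤ X ∧ ∑ i, faltings (j i) (τ i) ≤ H}

/-- Let `K` be a number field, `g` a natural number and `ε > 0`. For all `X, H ≥ 1` there are only
`C H ^ g X ^ (2 / 3 + ε)` products of `g` elliptic curves over `K` with full rational two-torsion
(up to isomorphism of the factors over `ℂ`), product of the norms of the bad primes of the factors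
at most `X` and stable Faltings height at most `H`. -/
theorem result (K : Type) [Field K] [NumberField K] (g : ℕ) (ε : ℝ) (hε : 0 < ε) :
    ∃ C : ℝ, ∀ X H : ℝ, 1 ≤ X → 1 ≤ H → (Classes K g X H).Finite ∧
      ((Classes K g X H).ncard : ℝ) ≤ C * H ^ g * X ^ ((2 : ℝ) / 3 + ε) :=
  Pool.Agent.TH876.FH.main (Pool.Agent.TH876.FH.hj Pool.Agent.TH876.FH.ana)
    Pool.Agent.TH876.FH.leg Pool.Agent.TH876.FH.lh Pool.Agent.TH876.FH.cnt
    Pool.Agent.TH876.FH.prod K g ε hε

end Pool.Agent.Results.MP_6babc4_nt.ProductsFullTwoTorsion
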