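import Mathlib
import Pool.Agent.TH876.FH.Ana
import Pool.Agent.TH876.FH.Hj
import Pool.Agent.TH876.NP.Classes
import Pool.Agent.TH876.NP.Roots
import Pool.Agent.TH876.NP.Gap
import Pool.Agent.TH876.NP.Choose
import Pool.Agent.TH876.NP.Scale
import Pool.Agent.TH876.NP.Core
import Pool.Agent.TH876.NP.Two
import Pool.Agent.TH876.NP.Stacky
import Pool.Agent.TH876.TT.Def
import Pool.Agent.TH876.TT.ParTwo
import Pool.Agent.TH876.TT.ParThree
import Pool.Agent.TH876.TT.Bad
import Pool.Agent.TH876.TT.Jh
import Pool.Agent.TH876.TT.Cnt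
import Pool.Agent.TH876.TT.Prod
import Pool.Agent.TH876.TT.Main

/-!
# Faltings heights of products of semistable elliptic curves with a rational point of order 2 or 3

`K` is a number field and `S` a finite set of primes of `K`. We count the products
`A = E₁ × ⋯ × E_g` of elliptic curves over `K` which are semistable outside `S`, have a `K`-rational
point of order `m` (`m = 2` or `m = 3`), have bad primes outside `S` of norm at most `y` only, with
product of the norms of the bad primes (of each factor) at most `X` and Faltings height at most `H`;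
here `H` may be much larger than every power of `X`.
-/

set_option autoImplicit false

namespace Pool.Agent.Results.MP_6babc4_nt.SemistableTorsionPoint

open NumberField IsDedekindDomain

/-- the modular invariant `j(τ) = E₄(τ) ^ 3 / Δ(τ) = 1 / q + 744 + ⋯` -/
noncomputable def jInv (τ : UpperHalfPlane) : ℂ :=
  ModularForm.E₄ τ ^ 3 / ModularForm.discriminant τ

/-- the archimedean term `- log (|Δ(τ)| (Im τ) ^ 6)` of the Faltings height -/
noncomputable def arch (τ : UpperHalfPlane) : ℝ :=
  -Real.log (‖ModularForm.discriminant τ‖ * τ.im ^ 6)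

/-- Silverman's formula for the stable Faltings height (up to an additive constant which depends on
the normalisation of the metric only) of an elliptic curve with modular invariant `j ∈ K`, where
`τ w` is a point of the upper half plane with modular invariant `j` at the infinite place `w`:
`12 [K : ℚ] h_F = ∑_v log max(|j|_v, 1) + ∑_w [K_w : ℝ] arch (τ w)`. -/
noncomputable def faltings {K : Type} [Field K] [NumberField K] (j : K)
    (τ : InfinitePlace K → UpperHalfPlane) : ℝ :=
  (∑ᶠ v : HeightOneSpectrum (𝓞 K), Real.log (max (FinitePlace.mk v j) 1) +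
    ∑ w : InfinitePlace K, (w.mult : ℝ) * arch (τ w)) / (12 * Module.finrank ℚ K)

/-- the points `τ w` have modular invariant `j` -/
def IsPeriod {K : Type} [Field K] [NumberField K] (j : K)
    (τ : InfinitePlace K → UpperHalfPlane) : Prop := ∀ w, jInv (τ w) = w.embedding j

/-- a `K`-rational point of order `m`, for `m = 2` and `m = 3`: a zero `x` of
`4 x ^ 3 + b₂ x ^ 2 + 2 b₄ x + b₆` (the first coordinate of a point of order two), resp. a point
`(x, y)` of the curve whose first coordinate is a zero of the third division polynomial -/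
def TorsionPoint {K : Type} [Field K] (m : ℕ) (E : WeierstrassCurve K) : Prop :=
  (m = 2 ∧ ∃ x : K, 4 * x ^ 3 + E.b₂ * x ^ 2 + 2 * E.b₄ * x + E.b₆ = 0) ∨
  (m = 3 ∧ ∃ x y : K, y ^ 2 + E.a₁ * x * y + E.a₃ * y = x ^ 3 + E.a₂ * x ^ 2 + E.a₄ * x + E.a₆ ∧
    3 * x ^ 4 + E.b₂ * x ^ 3 + 3 * E.b₄ * x ^ 2 + 3 * E.b₆ * x + E.b₈ = 0)

/-- good reduction at `v`: some Weierstrass equation over `K` of the curve is integral at `v` and
has a discriminant which is a unit at `v` -/
def GoodAt {K : Type} [Field K] [NumberField K] (v : HeightOneSpectrum (𝓞 K))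
    (E : WeierstrassCurve K) : Prop :=
  ∃ C : WeierstrassCurve.VariableChange K,
    v.valuation K (C • E).a₁ ≤ 1 ∧ v.valuation K (C • E).a₂ ≤ 1 ∧ v.valuation K (C • E).a₃ ≤ 1 ∧
    v.valuation K (C • E).a₄ ≤ 1 ∧ v.valuation K (C • E).a₆ ≤ 1 ∧ v.valuation K (C • E).Δ = 1

/-- semistable reduction at `v`: some Weierstrass equation over `K` of the curve is integral at `v`
and its discriminant or its invariant `c₄` is a unit at `v` -/
def SemistableAt {K : Type} [Field K] [NumberField K] (v : HeightOneSpectrum (𝓞 K))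
    (E : WeierstrassCurve K) : Prop :=
  ∃ C : WeierstrassCurve.VariableChange K,
    v.valuation K (C • E).a₁ ≤ 1 ∧ v.valuation K (C • E).a₂ ≤ 1 ∧ v.valuation K (C • E).a₃ ≤ 1 ∧
    v.valuation K (C • E).a₄ ≤ 1 ∧ v.valuation K (C • E).a₆ ≤ 1 ∧
    (v.valuation K (C • E).Δ = 1 ∨ v.valuation K (C • E).c₄ = 1)

/-- the product of the norms of the primes of bad reduction; it divides the norm of the
conductor -/
noncomputable def badNorm {K : Type} [Field K] [NumberField K] (E : WeierstrassCurve K) : ℝ :=
  ∏ᶠ v ∈ {v : HeightOneSpectrum (𝓞 K) | ¬ GoodAt v E}, (Ideal.absNorm v.asIdeal : ℝ)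

/-- the `g`-tuples of modular invariants of the products of `g` elliptic curves over `K` which are
semistable outside `S` and have a `K`-rational point of order `m`, with bad primes outside `S` of
norm at most `y`, product of the norms of the bad primes of the factors at most `X` and stable
Faltings height at most `H` -/
def Classes (K : Type) [Field K] [NumberField K] (m : ℕ) (S : Set (HeightOneSpectrum (𝓞 K)))
    (g : ℕ) (X y H : ℝ) : Set (Fin g → K) :=
  {j | ∃ (E : Fin g → WeierstrassCurve K) (τ : Fin g → InfinitePlace K → UpperHalfPlane),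
    (∀ i, (E i).Δ ≠ 0 ∧ TorsionPoint m (E i) ∧ (∀ v, v ∉ S → SemistableAt v (E i)) ∧
      (∀ v, v ∉ S → ¬ GoodAt v (E i) → (Ideal.absNorm v.asIdeal : ℝ) ≤ y) ∧
      (E i).c₄ ^ 3 / (E i).Δ = j i ∧ IsPeriod (j i) (τ i)) ∧
    ∏ i, badNorm (E i) ≤ X ∧ ∑ i, faltings (j i) (τ i) ≤ H}

/-- Let `K` be a number field, `m = 2` or `m = 3`, `S` a finite set of primes, `g` a natural number
and `ε > 0`. For all `X, y, H ≥ 1` there are at most
`C y ^ g X ^ ((m + 1) / (2 m) + ε) (1 + log H) ^ g` products of `g` elliptic curves over `K` (up to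
isomorphism of the factors over `ℂ`) which are semistable outside `S` and have a `K`-rational point
of order `m`, with bad primes outside `S` of norm at most `y`, product of the norms of the bad
primes of the factors at most `X` and stable Faltings height at most `H`. -/
theorem result (K : Type) [Field K] [NumberField K] (m : ℕ) (S : Set (HeightOneSpectrum (𝓞 K)))
    (hm : m = 2 ∨ m = 3) (hS : S.Finite) (g : ℕ) (ε : ℝ) (hε : 0 < ε) :
    ∃ C : ℝ, ∀ X y H : ℝ, 1 ≤ X → 1 ≤ y → 1 ≤ H → (Classes K m S g X y H).Finite ∧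
      ((Classes K m S g X y H).ncard : ℝ) ≤
        C * y ^ g * X ^ (((m : ℝ) + 1) / (2 * m) + ε) * (1 + Real.log H) ^ g :=
  Pool.Agent.TH876.TT.main (Pool.Agent.TH876.FH.hj Pool.Agent.TH876.FH.ana)
    Pool.Agent.TH876.TT.parTwo Pool.Agent.TH876.TT.parThree Pool.Agent.TH876.TT.bad
    Pool.Agent.TH876.TT.jh (Pool.Agent.TH876.TT.cnt fun K _ _ =>
      Pool.Agent.TH876.NP.stacky K (Pool.Agent.TH876.NP.two K (Pool.Agent.TH876.NP.choose K)
        (Pool.Agent.TH876.NP.core K (Pool.Agent.TH876.NP.scale K (Pool.Agent.TH876.NP.classes K)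
          (Pool.Agent.TH876.NP.roots K) (Pool.Agent.TH876.NP.gap K)))))
    Pool.Agent.TH876.TT.prod K m S hm hS g ε hε

end Pool.Agent.Results.MP_6babc4_nt.SemistableTorsionPoint
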